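import Pool.Agent.H95.CG.Meas

/-!
# IF: the contribution of a class as an integral over the unit torus
-/

set_option autoImplicit false

open NumberField NumberField.InfinitePlace NumberField.Units
  NumberField.Units.dirichletUnitTheorem MeasureTheory Set Filter Complex
open scoped nonZeroDivisors ENNReal

namespace Pool.Agent.H65.CG

open Pool.Agent.H95.CG Pool.Agent.H25.HK

open scoped Classical in
theorem int_one (K : Type) [Field K] [NumberField K] (hDU : T_DU) (hWP : T_WP) (M : FI K)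
    (hM : M ≠ 0) : IntegrableOn (fun t : ℝ => (ff K M (t / cv K M) - volume.real (Fd K)) * t)
      (Ioi 0) := by
  have hcv := cv_pos K hDU hM
  obtain ⟨P, hPf, -, hPk, -, hPf0, -⟩ := hWP K M hM
  have hs1 : P.k < ((2 : ℝ) : ℂ).re := by rw [hPk]; norm_num
  have hconv := (P.hasMellin (s := ((2 : ℝ) : ℂ)) hs1).1
  have hfun : (fun x => P.f x - P.f₀) =
      fun t => (((ff K M t - volume.real (Fd K) : ℝ)) : ℂ) := by
    funext t
    rw [hPf, hPf0]
    push_cast
    rfl
  rw [hfun] at hconv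
  have hreal : ∀ t ∈ Ioi (0 : ℝ), (t : ℂ) ^ (((2 : ℝ) : ℂ) - 1) •
      (((ff K M t - volume.real (Fd K) : ℝ)) : ℂ) =
      (((ff K M t - volume.real (Fd K)) * t : ℝ) : ℂ) := by
    intro t ht
    rw [smul_eq_mul, show (((2 : ℝ) : ℂ) - 1) = 1 by push_cast; norm_num, cpow_one]
    push_cast
    ring
  have hint : IntegrableOn (fun t : ℝ => (ff K M t - volume.real (Fd K)) * t)
      (Ioi 0) := by
    have h1 : IntegrableOn (fun t : ℝ => (((ff K M t - volume.real (Fd K)) * t : ℝ) : ℂ))
        (Ioi 0) := (integrableOn_congr_fun hreal measurableSet_Ioi).1 hconv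
    exact h1.re
  have h1 := (integrableOn_Ioi_comp_mul_right_iff
    (fun t : ℝ => (ff K M t - volume.real (Fd K)) * t) 0 (inv_pos.2 hcv)).2
  rw [zero_mul] at h1
  have h2 := (h1 hint).const_mul (cv K M)
  refine (integrableOn_congr_fun (fun t _ => ?_) measurableSet_Ioi).1 h2
  show cv K M * ((ff K M (t * (cv K M)⁻¹) - volume.real (Fd K)) * (t * (cv K M)⁻¹)) =
    (ff K M (t / cv K M) - volume.real (Fd K)) * t
  rw [div_eq_mul_inv]
  field_simp

open scoped Classical in
theorem pf_if (hTH : T_TH) (hCT : T_CT) (hYC : T_YC) (hFD : T_FD) (hDU : T_DU) (hWP : T_WP) :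
    T_IF := by
  intro K _ _ M hM
  have hnn : ∀ t : ℝ, 0 ≤ ff K M (t / cv K M) - volume.real (Fd K) := fun t =>
    (lint_ff K hTH hCT hYC hFD hM t).1
  have h1 := (int_one K hDU hWP M hM).mono_set (Ioi_subset_Ioi zero_le_one)
  have hmeas : Measurable (fun t : ℝ => t ^ (-(3 / 2) : ℝ)) := measurable_id.pow_const _
  have e1 : EqOn (fun t : ℝ => (ff K M (t / cv K M) - volume.real (Fd K)) * t *
      t ^ (-(3 / 2) : ℝ))
      (fun t : ℝ => (ff K M (t / cv K M) - volume.real (Fd K)) * t ^ (-(1 / 2) : ℝ))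
      (Ioi 1) := by
    intro t ht
    have ht0 : (0 : ℝ) < t := lt_trans one_pos ht
    simp only
    rw [mul_assoc, ← Real.rpow_one_add' ht0.le (by norm_num)]
    norm_num
  have hint : IntegrableOn (fun t : ℝ => (ff K M (t / cv K M) - volume.real (Fd K)) *
      t ^ (-(1 / 2) : ℝ)) (Ioi 1) := by
    refine (integrableOn_congr_fun e1 measurableSet_Ioi).1 ?_
    refine Integrable.mono h1 (h1.aestronglyMeasurable.mul hmeas.aestronglyMeasurable) ?_
    filter_upwards [ae_restrict_mem measurableSet_Ioi] with t ht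
    have ht1 : (1 : ℝ) ≤ t := le_of_lt ht
    have h3 : t ^ (-(3 / 2) : ℝ) ≤ 1 := Real.rpow_le_one_of_one_le_of_nonpos ht1 (by norm_num)
    have h4 : 0 ≤ t ^ (-(3 / 2) : ℝ) := Real.rpow_nonneg (by linarith) _
    rw [norm_mul, Real.norm_of_nonneg h4]
    exact mul_le_of_le_one_right (norm_nonneg _) h3
  have hpos : ∀ t ∈ Ioi (1 : ℝ), 0 ≤ (ff K M (t / cv K M) - volume.real (Fd K)) *
      t ^ (-(1 / 2) : ℝ) := fun t ht =>
    mul_nonneg (hnn t) (Real.rpow_nonneg (le_trans zero_le_one (le_of_lt ht)) _)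
  have hm : ∀ g : ℝ → ℝ, Measurable g → Measurable (fun p : logSpace K × ℝ =>
      ENNReal.ofReal ((tn K M p.2 p.1 - 1) * g p.2)) := by
    intro g hg
    have h1 := (meas_tn K hCT hYC hM).comp (measurable_snd.prodMk measurable_fst :
      Measurable (fun p : logSpace K × ℝ => (p.2, p.1)))
    exact ((h1.sub_const 1).mul (hg.comp measurable_snd)).ennreal_ofReal
  refine ⟨?_, fun t _ => hnn t, hint, ?_, fun g hg _ => ⟨?_, ?_⟩⟩
  · unfold Ir
    exact setIntegral_nonneg measurableSet_Ioi hpos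
  · rw [swap K hTH hCT hYC hFD hM (Ioi 1) (fun t => t ^ (-(1 / 2) : ℝ))
      (measurable_id.pow_const _)]
    unfold Ir
    rw [ofReal_integral_eq_lintegral_ofReal hint]
    exact (ae_restrict_iff' measurableSet_Ioi).2 (Eventually.of_forall hpos)
  · exact (hm g hg).lintegral_prod_right'
  · exact (hm g hg).lintegral_prod_right'

end Pool.Agent.H65.CG
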