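import Pool.Agent.H55.CG.Targets

/-!
Board cog_modules (MP_65efe8_pr), row EXI: one term of a group, upper bound.
-/

set_option autoImplicit false

open MeasureTheory ProbabilityTheory Filter Topology
open Pool.Agent.H95 Pool.Agent.H95.Cop Pool.Agent.H55.CG

namespace Pool.Agent.H65.CG

private lemma Mo_zero (ν : Measure ℝ) [IsProbabilityMeasure ν] : Mo ν 0 = 1 := by
  unfold Mo
  simp

private lemma Mo_nonneg (ν : Measure ℝ) (s : ℝ) : 0 ≤ Mo ν s :=
  integral_nonneg fun _ => (Real.exp_pos _).le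

/-- EXI: one term of a group, upper bound. -/
theorem pf_EXI (hEXC : T_EXC) : T_EXI := by
  intro ν _ hint s D ℓ t t' n hs hD hℓ hn hsD hs2 y z hy hyz hz
  have h := hEXC ν hint s 0 ℓ t t' n 0 0 y z hℓ hn le_rfl (Nat.zero_le _) hy hyz hz
  have hSX : ∀ x : ℕ → ℝ, s * ex ℓ t n t' x y z + 0 * SX ℓ x 0 0 = s * ex ℓ t n t' x y z := by
    intro x
    rw [zero_mul, add_zero]
  simp only [hSX] at h
  refine ⟨h.1, ?_⟩
  rw [h.2]
  simp only [Nat.sub_self, zero_mul, pow_zero, one_mul, Nat.sub_zero]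
  set mm := max 1 (Mo ν s) with hmm
  have h1 : (1 : ℝ) ≤ mm := le_max_left _ _
  have hle : ∀ b : Bool, Mo ν (if b then s else 0) ≤ mm := by
    intro b
    cases b
    · simp only [Bool.false_eq_true, if_false]
      rw [Mo_zero]
      exact h1
    · simp only [if_true]
      exact le_max_right _ _
  have e1 : Mo ν (if t then s else 0) ^ y ≤ mm ^ y :=
    pow_le_pow_left₀ (Mo_nonneg ν _) (hle t) y
  have e2 : Mo ν (s / 2) ^ (z - y) ≤ 1 := pow_le_one₀ (Mo_nonneg ν _) hs2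
  have e3 : Mo ν (if t' then s else 0) ^ (2 * n * ℓ - z) ≤ mm ^ (2 * n * ℓ - z) :=
    pow_le_pow_left₀ (Mo_nonneg ν _) (hle t') _
  have h0 : (0 : ℝ) ≤ mm := zero_le_one.trans h1
  calc Mo ν (if t then s else 0) ^ y * Mo ν (s / 2) ^ (z - y) *
        Mo ν (if t' then s else 0) ^ (2 * n * ℓ - z)
      ≤ mm ^ y * 1 * mm ^ (2 * n * ℓ - z) := by
        refine mul_le_mul (mul_le_mul e1 e2 (pow_nonneg (Mo_nonneg ν _) _)
          (pow_nonneg h0 _)) e3 (pow_nonneg (Mo_nonneg ν _) _) ?_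
        rw [mul_one]
        exact pow_nonneg h0 _
    _ = mm ^ (y + (2 * n * ℓ - z)) := by rw [mul_one, pow_add]
    _ ≤ mm ^ (ℓ * (2 * n + 1)) := by
        refine pow_le_pow_right₀ h1 ?_
        have e : ℓ * (2 * n + 1) = 2 * n * ℓ + ℓ := by ring
        omega
    _ = (mm ^ ℓ) ^ (2 * n + 1) := by rw [pow_mul]
    _ ≤ D ^ (2 * n + 1) := by
        refine pow_le_pow_left₀ (pow_nonneg h0 _) ?_ _
        rcases max_choice 1 (Mo ν s) with h2 | h2
        · rw [hmm, h2, one_pow]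
          exact hD
        · rw [hmm, h2]
          exact hsD

end Pool.Agent.H65.CG
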